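import Pool.Agent.Helper22.G4.St.C0

/-!
# G4-C3: the facets form an antichain
-/

namespace Pool.Agent.Helper63.G4

open Pool.Agent.Helper22.G4

/-- slopes and flags of the gadget facets of an operation -/
def GK (N : ℕ) (d : OpD) (X Y g s : ℕ) (b : Bool) : Prop :=
  (X = d.pb ∧ Y = d.pa ∧ g = d.g0 ∧ ((s = 0 ∧ b = true) ∨ (s = d.y ∧ b = true) ∨
    (s = d.z ∧ b = false) ∨ (s = d.i ∧ b = true) ∨ (s = d.x ∧ b = true) ∨ (s = N ∧ b = true))) ∨
  (X = d.pb ∧ Y = d.pc ∧ g = d.g1 ∧ ((s = 0 ∧ b = true) ∨ (s = d.y ∧ b = true) ∨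
    (s = d.i ∧ b = true) ∨ (s = d.v ∧ b = false) ∨ (s = d.x ∧ b = true) ∨ (s = N ∧ b = true))) ∨
  (X = d.pc ∧ Y = d.pd ∧ g = d.g2 ∧ ((s = 0 ∧ b = true) ∨ (s = d.y ∧ b = true) ∨
    (s = d.w ∧ b = false) ∨ (s = d.v ∧ b = true) ∨ (s = N ∧ b = true)))

/-- the kinds of facets -/
inductive View (I : NF) : Fc → Prop
  | q (a b : ℕ) (h : (a = 0 ∧ b = 1) ∨ (a = I.M ∧ b = 0) ∨
      (a % 4 = 0 ∧ 4 ≤ a ∧ b = a + 1 ∧ b ≤ I.M)) : View I (Fc.Q I.N a b)
  | f (a s : ℕ) (h1 : 1 ≤ a) (h2 : a + 1 ≤ I.M) (h3 : s ≤ I.N) : View I (Fc.F I.N s a)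
  | gx (a g : ℕ) (h1 : 1 ≤ a) (h2 : a ≤ I.M) (h3 : g < 3 * I.ops.length) : View I (Fc.GX I.N a g)
  | gy (a g : ℕ) (h1 : 1 ≤ a) (h2 : a ≤ I.M) (h3 : g < 3 * I.ops.length) : View I (Fc.GY I.N a g)
  | t0 (g : ℕ) (h3 : g < 3 * I.ops.length) : View I (Fc.T0 I.M I.N g)
  | g (d : OpD) (hd : d ∈ I.opds) (X Y g s : ℕ) (b : Bool) (h : GK I.N d X Y g s b) :
      View I (Fc.G I.N X Y g (s, b))

theorem view {I : NF} (hI : I.OK) {f : Fc} (hf : f ∈ I.data.fcodes) : View I f := by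
  obtain ⟨hM, hM', -, -⟩ := NF.size hI
  rw [NF.mem_fcodes] at hf
  rcases hf with rfl | ⟨a, s, h1, h2, h3, rfl⟩ | ⟨d, hd, hf⟩
  · exact View.q _ _ (Or.inl ⟨rfl, rfl⟩)
  · exact View.f _ _ h1 h2 h3
  · have h := NF.opd_ok hI hd
    have hn : 4 * d.n + 4 ≤ I.M := h.1
    have e1 : d.pa = 4 * d.n + 1 := rfl
    have e2 : d.pb = 4 * d.n + 2 := rfl
    have e3 : d.pc = 4 * d.n + 3 := rfl
    have e4 : d.pd = 4 * d.n + 4 := rfl
    have e5 : d.g0 = 3 * d.n := rfl
    have e6 : d.g1 = 3 * d.n + 1 := rfl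
    have e7 : d.g2 = 3 * d.n + 2 := rfl
    simp only [OpD.facets, List.mem_cons, List.not_mem_nil, or_false] at hf
    rcases hf with rfl | rfl | rfl | rfl | rfl | rfl | rfl | rfl | rfl | rfl | rfl | rfl | rfl |
      rfl | rfl | rfl | rfl | rfl | rfl | rfl | rfl | rfl | rfl | rfl | rfl | rfl | rfl
    · refine View.q _ _ ?_
      unfold OpD.nxt
      split_ifs with hh
      · right; left
        exact ⟨by omega, rfl⟩
      · right; right
        omega
    · exact View.gx _ _ (by omega) (by omega) (by omega)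
    · exact View.gy _ _ (by omega) (by omega) (by omega)
    · exact View.t0 _ (by omega)
    · exact View.gx _ _ (by omega) (by omega) (by omega)
    · exact View.gy _ _ (by omega) (by omega) (by omega)
    · exact View.t0 _ (by omega)
    · exact View.gx _ _ (by omega) (by omega) (by omega)
    · exact View.gy _ _ (by omega) (by omega) (by omega)
    · exact View.t0 _ (by omega)
    all_goals exact View.g d hd _ _ _ _ _ (by unfold GK; simp)

/-- the tests -/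
theorem tests {I : NF} {f g : Fc}
    (h : ∀ v ∈ I.data.verts, I.data.mem f v → I.data.mem g v) :
    (f.2.2.1.2 = true → g.2.2.1.2 = true) ∧ (f.2.2.1.1 = true → g.2.2.1.1 = true) ∧
    (∀ k, k < 3 * I.ops.length → f.2.2.2.1 = k + 1 → g.2.2.2.1 = k + 1) ∧
    (∀ k, k < 3 * I.ops.length → f.2.2.2.2 = k + 1 → g.2.2.2.2 = k + 1) ∧
    (∀ a i j, I.PU a i j → (a = f.1.1 ∨ a = f.1.2.1 ∨ a = f.1.2.2) → i ≤ f.2.1.2 → f.2.1.1 ≤ j →
      (a = g.1.1 ∨ a = g.1.2.1 ∨ a = g.1.2.2) ∧ i ≤ g.2.1.2 ∧ g.2.1.1 ≤ j) := by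
  refine ⟨fun h1 => ?_, fun h1 => ?_, fun k hk h1 => ?_, fun k hk h1 => ?_, fun a i j hp h1 h2 h3 => ?_⟩
  · have := h _ NF.b_mem.1
    change Fc.mem f Vx.b1 = true → Fc.mem g Vx.b1 = true at this
    rw [Fc.mem_b1, Fc.mem_b1] at this
    exact this h1
  · have := h _ NF.b_mem.2
    change Fc.mem f Vx.b2 = true → Fc.mem g Vx.b2 = true at this
    rw [Fc.mem_b2, Fc.mem_b2] at this
    exact this h1
  · have := h _ (NF.p_mem.2 hk)
    change Fc.mem f (Vx.p k) = true → Fc.mem g (Vx.p k) = true at this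
    rw [Fc.mem_p, Fc.mem_p] at this
    exact this h1
  · have := h _ (NF.q_mem.2 hk)
    change Fc.mem f (Vx.q k) = true → Fc.mem g (Vx.q k) = true at this
    rw [Fc.mem_q, Fc.mem_q] at this
    exact this h1
  · have := h _ hp
    change Fc.mem f (Vx.u a i j) = true → Fc.mem g (Vx.u a i j) = true at this
    rw [Fc.mem_u, Fc.mem_u] at this
    exact this ⟨h1, h2, h3⟩

/-- the page test -/
theorem page_test {I : NF} (hI : I.OK) {f g : Fc}
    (h : ∀ v ∈ I.data.verts, I.data.mem f v → I.data.mem g v) (a : ℕ) (ha : a ≤ I.M)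
    (h1 : a = f.1.1 ∨ a = f.1.2.1 ∨ a = f.1.2.2) (h2 : f.2.1.1 ≤ f.2.1.2)
    (h3 : f.2.1.1 ≤ I.N) : a = g.1.1 ∨ a = g.1.2.1 ∨ a = g.1.2.2 := by
  obtain ⟨-, -, hN, -⟩ := NF.size hI
  obtain ⟨-, -, -, -, hu⟩ := tests h
  rcases Nat.lt_or_ge f.2.1.1 I.N with h4 | h4
  · obtain ⟨i, j, hp, hi, hj⟩ := NF.pu_cover hI ha h4
    exact (hu a i j hp h1 (by omega) (by omega)).1
  · obtain ⟨i, j, hp, hi, hj⟩ := NF.pu_cover hI ha (show I.N - 1 < I.N by omega)
    exact (hu a i j hp h1 (by omega) (by omega)).1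

/-- slopes of gadget facets are slopes of one of the two pages -/
theorem GK.slope {I : NF} {d : OpD} (hd : d ∈ I.opds) {X Y g s : ℕ} {b : Bool}
    (h : GK I.N d X Y g s b) (h0 : s ≠ 0) (hN : s ≠ I.N) :
    ∃ i j Z, (Z = X ∨ Z = Y) ∧ I.PU Z i s ∧ I.PU Z s j := by
  rcases h with ⟨rfl, rfl, rfl, h⟩ | ⟨rfl, rfl, rfl, h⟩ | ⟨rfl, rfl, rfl, h⟩
  · rcases h with ⟨rfl, rfl⟩ | ⟨rfl, rfl⟩ | ⟨rfl, rfl⟩ | ⟨rfl, rfl⟩ | ⟨rfl, rfl⟩ | ⟨rfl, rfl⟩
    · exact absurd rfl h0
    · exact ⟨0, d.i, d.pb, Or.inl rfl, NF.pu_iff.2 (Or.inr ⟨d, hd, by simp⟩),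
        NF.pu_iff.2 (Or.inr ⟨d, hd, by simp⟩)⟩
    · exact ⟨0, d.x, d.pa, Or.inr rfl, NF.pu_iff.2 (Or.inr ⟨d, hd, by simp⟩),
        NF.pu_iff.2 (Or.inr ⟨d, hd, by simp⟩)⟩
    · exact ⟨d.y, d.x, d.pb, Or.inl rfl, NF.pu_iff.2 (Or.inr ⟨d, hd, by simp⟩),
        NF.pu_iff.2 (Or.inr ⟨d, hd, by simp⟩)⟩
    · exact ⟨d.i, I.N, d.pb, Or.inl rfl, NF.pu_iff.2 (Or.inr ⟨d, hd, by simp⟩),
        NF.pu_iff.2 (Or.inr ⟨d, hd, by simp⟩)⟩
    · exact absurd rfl hN
  · rcases h with ⟨rfl, rfl⟩ | ⟨rfl, rfl⟩ | ⟨rfl, rfl⟩ | ⟨rfl, rfl⟩ | ⟨rfl, rfl⟩ | ⟨rfl, rfl⟩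
    · exact absurd rfl h0
    · exact ⟨0, d.i, d.pb, Or.inl rfl, NF.pu_iff.2 (Or.inr ⟨d, hd, by simp⟩),
        NF.pu_iff.2 (Or.inr ⟨d, hd, by simp⟩)⟩
    · exact ⟨d.y, d.x, d.pb, Or.inl rfl, NF.pu_iff.2 (Or.inr ⟨d, hd, by simp⟩),
        NF.pu_iff.2 (Or.inr ⟨d, hd, by simp⟩)⟩
    · exact ⟨d.y, I.N, d.pc, Or.inr rfl, NF.pu_iff.2 (Or.inr ⟨d, hd, by simp⟩),
        NF.pu_iff.2 (Or.inr ⟨d, hd, by simp⟩)⟩
    · exact ⟨d.i, I.N, d.pb, Or.inl rfl, NF.pu_iff.2 (Or.inr ⟨d, hd, by simp⟩),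
        NF.pu_iff.2 (Or.inr ⟨d, hd, by simp⟩)⟩
    · exact absurd rfl hN
  · rcases h with ⟨rfl, rfl⟩ | ⟨rfl, rfl⟩ | ⟨rfl, rfl⟩ | ⟨rfl, rfl⟩ | ⟨rfl, rfl⟩
    · exact absurd rfl h0
    · exact ⟨0, d.v, d.pc, Or.inl rfl, NF.pu_iff.2 (Or.inr ⟨d, hd, by simp⟩),
        NF.pu_iff.2 (Or.inr ⟨d, hd, by simp⟩)⟩
    · exact ⟨0, I.N, d.pd, Or.inr rfl, NF.pu_iff.2 (Or.inr ⟨d, hd, by simp⟩),
        NF.pu_iff.2 (Or.inr ⟨d, hd, by simp⟩)⟩
    · exact ⟨d.y, I.N, d.pc, Or.inl rfl, NF.pu_iff.2 (Or.inr ⟨d, hd, by simp⟩),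
        NF.pu_iff.2 (Or.inr ⟨d, hd, by simp⟩)⟩
    · exact absurd rfl hN

/-- bounds -/
theorem GK.bd {I : NF} (hI : I.OK) {d : OpD} (hd : d ∈ I.opds) {X Y g s : ℕ} {b : Bool}
    (h : GK I.N d X Y g s b) : 1 ≤ X ∧ X ≤ I.M ∧ 1 ≤ Y ∧ Y ≤ I.M ∧ X ≠ Y ∧
      g < 3 * I.ops.length ∧ s ≤ I.N := by
  have ok := NF.opd_ok hI hd
  obtain ⟨-, hM', -, -⟩ := NF.size hI
  have e1 : d.pa = 4 * d.n + 1 := rfl
  have e2 : d.pb = 4 * d.n + 2 := rfl
  have e3 : d.pc = 4 * d.n + 3 := rfl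
  have e4 : d.pd = 4 * d.n + 4 := rfl
  have e5 : d.g0 = 3 * d.n := rfl
  have e6 : d.g1 = 3 * d.n + 1 := rfl
  have e7 : d.g2 = 3 * d.n + 2 := rfl
  unfold GK at h
  omega

/-- the gadget facet is determined by the number of the gadget and the slope -/
theorem GK.inj {I : NF} (hI : I.OK) {d d' : OpD} (hd : d ∈ I.opds) (hd' : d' ∈ I.opds)
    {X Y X' Y' g s : ℕ} {b b' : Bool}
    (h : GK I.N d X Y g s b) (h' : GK I.N d' X' Y' g s b') : X = X' ∧ Y = Y' ∧ b = b' := by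
  have e5 : d.g0 = 3 * d.n := rfl
  have e6 : d.g1 = 3 * d.n + 1 := rfl
  have e7 : d.g2 = 3 * d.n + 2 := rfl
  have e5' : d'.g0 = 3 * d'.n := rfl
  have e6' : d'.g1 = 3 * d'.n + 1 := rfl
  have e7' : d'.g2 = 3 * d'.n + 2 := rfl
  have hdd : d = d' := by
    apply NF.opds_inj hd hd'
    have w1 : g = d.g0 ∨ g = d.g1 ∨ g = d.g2 := by
      rcases h with h | h | h
      · exact Or.inl h.2.2.1
      · exact Or.inr (Or.inl h.2.2.1)
      · exact Or.inr (Or.inr h.2.2.1)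
    have w2 : g = d'.g0 ∨ g = d'.g1 ∨ g = d'.g2 := by
      rcases h' with h | h | h
      · exact Or.inl h.2.2.1
      · exact Or.inr (Or.inl h.2.2.1)
      · exact Or.inr (Or.inr h.2.2.1)
    omega
  subst hdd
  have ok := NF.opd_ok hI hd
  have hb : b = b' := by
    cases b <;> cases b' <;> simp only [GK, reduceCtorEq, and_false, and_true, or_false, false_or] at h h' ⊢ <;> omega
  rcases h with h | h | h <;> rcases h' with h' | h' | h' <;>
  first
    | exact ⟨h.1.trans h'.1.symm, h.2.1.trans h'.2.1.symm, hb⟩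
    | (exfalso; have := h.2.2.1; have := h'.2.2.1; omega)

/-- G4-C3 -/
theorem NF.anti {I : NF} (hI : I.OK) : ∀ f ∈ I.data.fcodes, ∀ g ∈ I.data.fcodes,
    (∀ v ∈ I.data.verts, I.data.mem f v → I.data.mem g v) → f = g := by
  intro f hf g hg h
  obtain ⟨hM, hM', hN, -⟩ := NF.size hI
  obtain ⟨hb1, hb2, hp, hq, hu⟩ := tests h
  have hpage := page_test hI h
  clear h
  have vf := view hI hf
  have vg := view hI hg
  clear hf hg
  cases vf with
  | q a b hab =>
    have ha := hpage a (by omega) (Or.inl rfl) (Nat.zero_le _) (Nat.zero_le _)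
    have hb := hpage b (by omega) (Or.inr (Or.inl rfl)) (Nat.zero_le _) (Nat.zero_le _)
    have h1 := hb1 rfl
    have h2 := hb2 rfl
    cases vg with
    | q a' b' hab' =>
      simp only [Fc.Q] at ha hb
      have : a = a' ∧ b = b' := by omega
      rw [this.1, this.2]
    | f a' s' h1' h2' h3' =>
      simp only [Fc.F, decide_eq_true_eq] at h1 h2
      omega
    | gx a' g' h1' h2' h3' =>
      simp only [Fc.GX] at ha hb
      omega
    | gy a' g' h1' h2' h3' =>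
      simp only [Fc.GY] at ha hb
      omega
    | t0 g' h3' =>
      simp only [Fc.T0] at ha hb
      omega
    | g d hd X Y g' s b h' =>
      simp only [Fc.G, decide_eq_true_eq] at h1 h2
      omega
  | f a s h1 h2 h3 =>
    have ha := hpage a (by omega) (Or.inr (Or.inl rfl)) le_rfl h3
    have hb := hpage (a + 1) (by omega) (Or.inr (Or.inr rfl)) le_rfl h3
    have hc := hpage 0 (by omega) (Or.inl rfl) le_rfl h3
    cases vg with
    | q a' b' hab' =>
      simp only [Fc.Q] at ha hb hc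
      omega
    | f a' s' h1' h2' h3' =>
      simp only [Fc.F] at ha hb hc
      have e1 : a = a' := by omega
      subst e1
      have e2 : s = s' := by
        simp only [Fc.F, decide_eq_true_eq] at hb1 hb2 hu
        rcases Nat.eq_zero_or_pos s with hs | hs
        · omega
        · rcases Nat.lt_or_ge s I.N with hs' | hs'
          · have u1 := hu 0 (s - 1) s (NF.pu_iff.2 (Or.inl ⟨rfl, by omega, by omega⟩)) (Or.inl rfl)
              (by omega) le_rfl
            have u2 := hu 0 s (s + 1) (NF.pu_iff.2 (Or.inl ⟨rfl, by omega, by omega⟩)) (Or.inl rfl)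
              le_rfl (by omega)
            omega
          · omega
      rw [e2]
    | gx a' g' h1' h2' h3' =>
      simp only [Fc.GX] at ha hb
      omega
    | gy a' g' h1' h2' h3' =>
      simp only [Fc.GY] at ha hb
      omega
    | t0 g' h3' =>
      simp only [Fc.T0] at ha hb
      omega
    | g d hd X Y g' s b h' =>
      have := GK.bd hI hd h'
      simp only [Fc.G] at ha hb hc
      omega
  | gx a k h1 h2 h3 =>
    have ha := hpage a (by omega) (Or.inl rfl) (Nat.zero_le _) (Nat.zero_le _)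
    have t1 := hb1 rfl
    have t2 := hb2 rfl
    have t3 := hp k h3 rfl
    cases vg with
    | q a' b' hab' =>
      simp only [Fc.Q] at t3
      omega
    | f a' s' h1' h2' h3' =>
      simp only [Fc.F] at t3
      omega
    | gx a' g' h1' h2' h3' =>
      simp only [Fc.GX] at ha t3
      have : a = a' ∧ k = g' := by omega
      rw [this.1, this.2]
    | gy a' g' h1' h2' h3' =>
      simp only [Fc.GY] at t3
      omega
    | t0 g' h3' =>
      simp only [Fc.T0] at ha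
      omega
    | g d hd X Y g' s b h' =>
      simp only [Fc.G, decide_eq_true_eq] at t1 t2
      omega
  | gy a k h1 h2 h3 =>
    have ha := hpage a (by omega) (Or.inl rfl) (Nat.zero_le _) (Nat.zero_le _)
    have t1 := hb1 rfl
    have t2 := hb2 rfl
    have t3 := hq k h3 rfl
    cases vg with
    | q a' b' hab' =>
      simp only [Fc.Q] at t3
      omega
    | f a' s' h1' h2' h3' =>
      simp only [Fc.F] at t3
      omega
    | gx a' g' h1' h2' h3' =>
      simp only [Fc.GX] at t3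
      omega
    | gy a' g' h1' h2' h3' =>
      simp only [Fc.GY] at ha t3
      have : a = a' ∧ k = g' := by omega
      rw [this.1, this.2]
    | t0 g' h3' =>
      simp only [Fc.T0] at ha
      omega
    | g d hd X Y g' s b h' =>
      simp only [Fc.G, decide_eq_true_eq] at t1 t2
      omega
  | t0 k h3 =>
    have t1 := hb1 rfl
    have t2 := hb2 rfl
    have t3 := hq k h3 rfl
    have t4 := hp k h3 rfl
    cases vg with
    | q a' b' hab' =>
      simp only [Fc.Q] at t3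
      omega
    | f a' s' h1' h2' h3' =>
      simp only [Fc.F] at t3
      omega
    | gx a' g' h1' h2' h3' =>
      simp only [Fc.GX] at t3
      omega
    | gy a' g' h1' h2' h3' =>
      simp only [Fc.GY] at t4
      omega
    | t0 g' h3' =>
      simp only [Fc.T0] at t3
      have : k = g' := by omega
      rw [this]
    | g d hd X Y g' s b h' =>
      simp only [Fc.G, decide_eq_true_eq] at t1 t2
      omega
  | g d hd X Y k s b hG =>
    obtain ⟨b1, b2, b3, b4, b5, b6, b7⟩ := GK.bd hI hd hG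
    have hX := hpage X b2 (Or.inl rfl) le_rfl b7
    have hY := hpage Y b4 (Or.inr (Or.inl rfl)) le_rfl b7
    have t3 := hq k b6 rfl
    cases vg with
    | q a' b' hab' =>
      simp only [Fc.Q] at t3
      omega
    | f a' s' h1' h2' h3' =>
      simp only [Fc.F] at t3
      omega
    | gx a' g' h1' h2' h3' =>
      simp only [Fc.GX] at t3
      omega
    | gy a' g' h1' h2' h3' =>
      simp only [Fc.GY] at hX hY
      omega
    | t0 g' h3' =>
      simp only [Fc.T0] at hX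
      omega
    | g d' hd' X' Y' g' s' b' h' =>
      simp only [Fc.G] at t3
      have e1 : k = g' := by omega
      subst e1
      have e2 : s = s' := by
        simp only [Fc.G, decide_eq_true_eq] at hb1 hb2 hu
        rcases eq_or_ne s 0 with hs | hs
        · omega
        · rcases eq_or_ne s I.N with hs' | hs'
          · omega
          · obtain ⟨i, j, Z, hZ, p1, p2⟩ := GK.slope hd hG hs hs'
            have l1 := NF.pu_lt hI p1
            have l2 := NF.pu_lt hI p2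
            have u1 := hu Z i s p1 (by tauto) (by omega) le_rfl
            have u2 := hu Z s j p2 (by tauto) le_rfl (by omega)
            omega
      subst e2
      obtain ⟨r1, r2, r3⟩ := GK.inj hI hd hd' hG h'
      rw [r1, r2, r3]

end Pool.Agent.Helper63.G4
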